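import Pool.Agent.Helper91.IP.Defs

/-!
# Project IP, piece G3: the spectral gap of a connected graph
-/

namespace Pool.Agent.Helper76.IP

open Finset Equiv Matrix Pool.Agent.Helper91.IP

variable {V : Type} [Fintype V] [DecidableEq V]

/-- the Dirichlet form of the single particle -/
noncomputable def dir (r : V → V → ℝ) (u : V → ℝ) : ℝ :=
  (1 / 2) * ∑ x, ∑ y, r x y * (u x - u y) ^ 2

omit [DecidableEq V] in
theorem dir_nonneg {r : V → V → ℝ} (hn : ∀ x y, 0 ≤ r x y) (u : V → ℝ) : 0 ≤ dir r u := by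
  unfold dir
  have : 0 ≤ ∑ x, ∑ y, r x y * (u x - u y) ^ 2 :=
    sum_nonneg fun x _ => sum_nonneg fun y _ => mul_nonneg (hn x y) (sq_nonneg _)
  linarith

omit [DecidableEq V] in
theorem dir_smul (r : V → V → ℝ) (a : ℝ) (u : V → ℝ) :
    dir r (fun x => a * u x) = a ^ 2 * dir r u := by
  unfold dir
  have h : ∀ x y, r x y * (a * u x - a * u y) ^ 2 = a ^ 2 * (r x y * (u x - u y) ^ 2) := by
    intro x y; ring
  simp only [h, ← mul_sum]
  ring

omit [DecidableEq V] in
theorem dir_add (r : V → V → ℝ) (t : ℝ) (u v : V → ℝ) :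
    dir r (fun x => u x + t * v x) = dir r u + t * (∑ x, ∑ y, r x y * ((u x - u y) * (v x - v y)))
      + t ^ 2 * dir r v := by
  unfold dir
  have h : ∀ x y, r x y * (u x + t * v x - (u y + t * v y)) ^ 2 =
      r x y * (u x - u y) ^ 2 + (2 * t) * (r x y * ((u x - u y) * (v x - v y)))
        + t ^ 2 * (r x y * (v x - v y) ^ 2) := by
    intro x y; ring
  simp only [h, sum_add_distrib, ← mul_sum]
  ring

omit [DecidableEq V] in
theorem cross_eq {r : V → V → ℝ} (hs : ∀ x y, r x y = r y x) (u v : V → ℝ) :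
    ∑ x, ∑ y, r x y * ((u x - u y) * (v x - v y)) =
      2 * ∑ x, v x * ∑ y, r x y * (u x - u y) := by
  have h1 : ∑ x, ∑ y, r x y * ((u x - u y) * (v x - v y)) =
      ∑ x, ∑ y, v x * (r x y * (u x - u y)) + ∑ x, ∑ y, v y * (r x y * (u y - u x)) := by
    rw [← sum_add_distrib]
    refine sum_congr rfl fun x _ => ?_
    rw [← sum_add_distrib]
    exact sum_congr rfl fun y _ => by ring
  have h2 : ∑ x, ∑ y, v y * (r x y * (u y - u x)) = ∑ x, ∑ y, v x * (r x y * (u x - u y)) := by
    rw [sum_comm]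
    refine sum_congr rfl fun x _ => sum_congr rfl fun y _ => ?_
    rw [hs y x]
  rw [h1, h2]
  have h3 : ∑ x, ∑ y, v x * (r x y * (u x - u y)) = ∑ x, v x * ∑ y, r x y * (u x - u y) :=
    sum_congr rfl fun x _ => (mul_sum _ _ _).symm
  rw [h3]
  ring

theorem pow_pos_of_ne {a : ℝ} (h : a ≠ 0) : 0 < a ^ 2 := by positivity

theorem lin_zero {b c : ℝ} (h : ∀ t : ℝ, 0 ≤ t * b + t ^ 2 * c) : b = 0 := by
  by_contra hb
  have hb2 : 0 < b ^ 2 := by positivity
  by_cases hc : 0 < c
  · have h1 := h (-b / (2 * c))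
    have h2 : -b / (2 * c) * b + (-b / (2 * c)) ^ 2 * c = -(b ^ 2 / (4 * c)) := by
      field_simp
      ring
    rw [h2] at h1
    have : 0 < b ^ 2 / (4 * c) := by positivity
    linarith
  · have h1 := h (-b)
    have hc' : c ≤ 0 := not_lt.1 hc
    nlinarith

theorem exists_min (r : V → V → ℝ) (hn : 2 ≤ Fintype.card V) :
    ∃ u : V → ℝ, ∑ x, u x = 0 ∧ ∑ x, u x ^ 2 = 1 ∧
      ∀ v : V → ℝ, ∑ x, v x = 0 → dir r u * ∑ x, v x ^ 2 ≤ dir r v := by
  classical
  let K : Set (V → ℝ) := {u | ∑ x, u x = 0 ∧ ∑ x, u x ^ 2 = 1}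
  have hclosed : IsClosed K := by
    refine IsClosed.inter ?_ ?_
    · exact isClosed_eq (by fun_prop) continuous_const
    · exact isClosed_eq (by fun_prop) continuous_const
  have hbdd : K ⊆ Set.pi Set.univ fun _ : V => Set.Icc (-1 : ℝ) 1 := by
    intro u hu x _
    have h1 : u x ^ 2 ≤ 1 := by
      rw [← hu.2]
      exact single_le_sum (f := fun x => u x ^ 2) (fun y _ => sq_nonneg _) (mem_univ x)
    exact abs_le.1 (abs_le_one_iff_mul_self_le_one.2 (by nlinarith))
  have hcomp : IsCompact K :=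
    IsCompact.of_isClosed_subset (isCompact_univ_pi fun _ => isCompact_Icc) hclosed hbdd
  obtain ⟨a, b, hab⟩ : ∃ a b : V, a ≠ b := by
    have : 1 < Fintype.card V := by omega
    exact Fintype.exists_pair_of_one_lt_card this
  have hne : K.Nonempty := by
    let w : V → ℝ := fun x => (if x = a then 1 else 0) - (if x = b then 1 else 0)
    have hw1 : ∑ x, w x = 0 := by simp [w]
    have hw2 : ∑ x, w x ^ 2 = 2 := by
      have h : ∀ x, w x ^ 2 = (if x = a then 1 else 0) + (if x = b then 1 else 0) := by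
        intro x
        by_cases h1 : x = a
        · have h2 : x ≠ b := fun h => hab (h1.symm.trans h)
          simp [w, h1, hab]
        · by_cases h2 : x = b
          · simp [w, h2, hab.symm]
          · simp [w, h1, h2]
      simp only [h, sum_add_distrib]
      simp
      norm_num
    refine ⟨fun x => (1 / Real.sqrt 2) * w x, ?_, ?_⟩
    · rw [← mul_sum, hw1, mul_zero]
    · have h : ∀ x, (1 / Real.sqrt 2 * w x) ^ 2 = (1 / 2) * w x ^ 2 := by
        intro x
        rw [mul_pow, div_pow, Real.sq_sqrt (by norm_num)]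
        ring
      simp only [h, ← mul_sum, hw2]
      norm_num
  have hcont : ContinuousOn (dir r) K := by
    apply Continuous.continuousOn
    unfold dir
    fun_prop
  obtain ⟨u, hu, hmin⟩ := hcomp.exists_isMinOn hne hcont
  refine ⟨u, hu.1, hu.2, ?_⟩
  intro v hv
  by_cases h0 : ∑ x, v x ^ 2 = 0
  · have hv0 : v = 0 := by
      funext x
      have := (sum_eq_zero_iff_of_nonneg (fun y _ => sq_nonneg (v y))).1 h0 x (mem_univ x)
      exact pow_eq_zero_iff (two_ne_zero) |>.1 this
    rw [h0, mul_zero, hv0]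
    simp [dir]
  · have hpos : 0 < ∑ x, v x ^ 2 :=
      lt_of_le_of_ne (sum_nonneg fun y _ => sq_nonneg _) (Ne.symm h0)
    set N := ∑ x, v x ^ 2 with hN
    have hs : 0 < Real.sqrt N := Real.sqrt_pos.2 hpos
    have hmem : (fun x => (1 / Real.sqrt N) * v x) ∈ K := by
      refine ⟨?_, ?_⟩
      · rw [← mul_sum, hv, mul_zero]
      · have h : ∀ x, (1 / Real.sqrt N * v x) ^ 2 = (1 / N) * v x ^ 2 := by
          intro x
          rw [mul_pow, div_pow, Real.sq_sqrt hpos.le]
          ring
        simp only [h, ← mul_sum, ← hN]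
        field_simp
    have h1 : dir r u ≤ dir r (fun x => (1 / Real.sqrt N) * v x) := hmin hmem
    rw [dir_smul, div_pow, Real.sq_sqrt hpos.le, one_pow] at h1
    calc dir r u * N ≤ (1 / N * dir r v) * N := mul_le_mul_of_nonneg_right h1 hpos.le
      _ = dir r v := by field_simp

omit [DecidableEq V] in
theorem gapR_eq (r : V → V → ℝ) {u : V → ℝ} (hu : ∑ x, u x = 0) (hu1 : ∑ x, u x ^ 2 = 1)
    (hmin : ∀ v : V → ℝ, ∑ x, v x = 0 → dir r u * ∑ x, v x ^ 2 ≤ dir r v) :
    gapR r = dir r u := by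
  unfold gapR
  apply le_antisymm
  · apply csInf_le
    · refine ⟨dir r u, ?_⟩
      rintro a ⟨v, hv0, hv, rfl⟩
      have hpos : 0 < ∑ x, v x ^ 2 := by
        obtain ⟨x, hx⟩ := Function.ne_iff.1 hv0
        exact sum_pos' (fun y _ => sq_nonneg _) ⟨x, mem_univ x, pow_pos_of_ne hx⟩
      rw [le_div_iff₀ hpos]
      exact hmin v hv
    · refine ⟨u, ?_, hu, ?_⟩
      · rintro rfl
        simp at hu1
      · rw [hu1, div_one]
        rfl
  · apply le_csInf
    · refine ⟨dir r u, u, ?_, hu, ?_⟩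
      · rintro rfl
        simp at hu1
      · rw [hu1, div_one]
        rfl
    · rintro a ⟨v, hv0, hv, rfl⟩
      have hpos : 0 < ∑ x, v x ^ 2 := by
        obtain ⟨x, hx⟩ := Function.ne_iff.1 hv0
        exact sum_pos' (fun y _ => sq_nonneg _) ⟨x, mem_univ x, pow_pos_of_ne hx⟩
      rw [le_div_iff₀ hpos]
      exact hmin v hv

omit [DecidableEq V] in
theorem eigen {r : V → V → ℝ} (hs : ∀ x y, r x y = r y x) {u : V → ℝ} (hu : ∑ x, u x = 0)
    (hu1 : ∑ x, u x ^ 2 = 1)
    (hmin : ∀ v : V → ℝ, ∑ x, v x = 0 → dir r u * ∑ x, v x ^ 2 ≤ dir r v) (x : V) :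
    ∑ y, r x y * (u x - u y) = dir r u * u x := by
  set m := dir r u with hm
  let w : V → ℝ := fun x => ∑ y, r x y * (u x - u y) - m * u x
  have hw : ∑ x, w x = 0 := by
    have h1 : ∑ x, ∑ y, r x y * (u x - u y) = 0 := by
      have h2 : ∑ x, ∑ y, r x y * (u x - u y) = ∑ x, ∑ y, r x y * (u y - u x) := by
        rw [sum_comm]
        refine sum_congr rfl fun x _ => sum_congr rfl fun y _ => ?_
        rw [hs y x]
      have h3 : ∑ x, ∑ y, r x y * (u y - u x) = - ∑ x, ∑ y, r x y * (u x - u y) := by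
        rw [← sum_neg_distrib]
        refine sum_congr rfl fun x _ => ?_
        rw [← sum_neg_distrib]
        exact sum_congr rfl fun y _ => by ring
      linarith
    simp only [w, sum_sub_distrib, ← mul_sum, hu, h1, mul_zero, sub_zero]
  have key : ∀ t : ℝ, 0 ≤ t * (∑ x, ∑ y, r x y * ((u x - u y) * (w x - w y)) -
      2 * m * ∑ x, u x * w x) + t ^ 2 * (dir r w - m * ∑ x, w x ^ 2) := by
    intro t
    have h1 := hmin (fun x => u x + t * w x) (by
      rw [sum_add_distrib, ← mul_sum, hu, hw, mul_zero, add_zero])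
    rw [dir_add] at h1
    have h2 : ∑ x, (u x + t * w x) ^ 2 = 1 + 2 * t * ∑ x, u x * w x + t ^ 2 * ∑ x, w x ^ 2 := by
      have h : ∀ x, (u x + t * w x) ^ 2 = u x ^ 2 + 2 * t * (u x * w x) + t ^ 2 * w x ^ 2 := by
        intro x; ring
      simp only [h, sum_add_distrib, ← mul_sum, hu1]
    rw [h2, ← hm] at h1
    nlinarith [h1]
  have h0 := lin_zero key
  rw [cross_eq hs] at h0
  have h3 : ∑ x, w x ^ 2 = 0 := by
    have h4 : ∑ x, w x ^ 2 = ∑ x, w x * ∑ y, r x y * (u x - u y) - m * ∑ x, u x * w x := by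
      rw [mul_sum, ← sum_sub_distrib]
      refine sum_congr rfl fun x _ => ?_
      simp only [w]
      ring
    rw [h4]
    linarith
  have h5 := (sum_eq_zero_iff_of_nonneg (fun y _ => sq_nonneg (w y))).1 h3 x (mem_univ x)
  have h6 : w x = 0 := pow_eq_zero_iff (two_ne_zero) |>.1 h5
  simp only [w] at h6
  linarith

/-- IP-G3: the spectral gap of a connected graph -/
theorem gap_srw (G : SimpleGraph V) [DecidableRel G.Adj] (hG : G.Connected)
    (hn : 2 ≤ Fintype.card V) :
    Gap (srw G) (gapR (srw G)) ∧ ∃ u : V → ℝ, u ≠ 0 ∧ ∑ x, u x = 0 ∧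
      ∀ x, ∑ y, srw G x y * (u x - u y) = gapR (srw G) * u x := by
  have hs : ∀ x y, srw G x y = srw G y x := by
    intro x y
    simp only [srw, G.adj_comm x y]
  have hnn : ∀ x y, 0 ≤ srw G x y := by
    intro x y
    simp only [srw]
    split_ifs <;> norm_num
  obtain ⟨u, hu, hu1, hmin⟩ := exists_min (srw G) hn
  have hg := gapR_eq (srw G) hu hu1 hmin
  have hu0 : u ≠ 0 := by
    rintro rfl
    simp at hu1
  have hpos : 0 < dir (srw G) u := by
    rcases (dir_nonneg hnn u).lt_or_eq with h | h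
    · exact h
    · exfalso
      have h1 : ∑ x, ∑ y, srw G x y * (u x - u y) ^ 2 = 0 := by
        unfold dir at h
        linarith
      have h2 : ∀ x y, G.Adj x y → u x = u y := by
        intro x y hxy
        have h3 := (sum_eq_zero_iff_of_nonneg (fun x _ => sum_nonneg fun y _ =>
          mul_nonneg (hnn x y) (sq_nonneg (u x - u y)))).1 h1 x (mem_univ x)
        have h4 := (sum_eq_zero_iff_of_nonneg (fun y _ =>
          mul_nonneg (hnn x y) (sq_nonneg (u x - u y)))).1 h3 y (mem_univ y)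
        simp only [srw, if_pos hxy, one_mul] at h4
        have h5 : u x - u y = 0 := pow_eq_zero_iff (two_ne_zero) |>.1 h4
        linarith
      have h3 : ∀ x y, u x = u y := by
        intro x y
        obtain ⟨p⟩ := hG.preconnected x y
        induction p with
        | nil => rfl
        | cons hadj _ ih => exact (h2 _ _ hadj).trans ih
      have h4 : u = 0 := by
        funext x
        have h5 : ∑ y, u y = (Fintype.card V : ℝ) * u x := by
          rw [sum_congr rfl fun y _ => h3 y x, sum_const, card_univ, nsmul_eq_mul]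
        rw [hu] at h5
        have h6 : (Fintype.card V : ℝ) ≠ 0 := by
          have : (0 : ℝ) < Fintype.card V := by exact_mod_cast (by omega : 0 < Fintype.card V)
          exact this.ne'
        exact (mul_eq_zero.1 h5.symm).resolve_left h6
      exact hu0 h4
  refine ⟨⟨hs, hnn, ?_, ?_⟩, u, hu0, hu, ?_⟩
  · rw [hg]; exact hpos
  · intro v hv
    rw [hg]
    exact hmin v hv
  · intro x
    rw [hg]
    exact eigen hs hu hu1 hmin x

end Pool.Agent.Helper76.IP
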